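import Pool.Agent.SP97.Mat
import Pool.Graph.R_seed8.Results.MP_436edf_co.SpreadOne

/-!
# The three smallest Laplacian spreads of balanced digraphs

The three smallest values of the Laplacian spread of balanced digraphs of order `n ≥ 3` are `0`, `1`
and `√5 / 2`, and the digraphs with these values are determined:

* `0`: the digraphs without arcs, the complete digraphs and the (regular) tournaments;
* `1` (this is the question): `n ≥ 4` is even and `Γ` or its complement is `(n - 2) / 2`-regular
  without digons;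
* `√5 / 2`: `Γ` or its complement is the directed cycle of length five.

There is no balanced digraph with a spread in `(0, 1)` or `(1, √5 / 2)`.

Proof.  Let `W i j` be the number of arcs between `i` and `j`, `o` the outdegree, `c = α + β` and `s`
the spread.  On vectors orthogonal to the all-ones vector `|(L + Lᵀ - c) x| ≤ s |x|`; for
`x = e_i - e_j` this says
`∑_{k ≠ i, j} (W k i - W k j)² + (2 o_i + W i j - c)² + (2 o_j + W i j - c)² ≤ 2 s² ≤ 5 / 2`.
The first sum is an even integer, so it is `0` or `2`; the rest is combinatorics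
(`Pool.Agent.SP97.classify`).
-/

namespace Pool.Agent.Results.MP_436edf_co.SmallSpreads

open Pool.Agent.R520 Pool.Agent.SP97 Finset
open Pool.Agent.Results.MP_436edf_co.SpreadOne (HalfRegular cocktail_iff)

variable {V : Type} [Fintype V] [DecidableEq V]

/-- `Γ` is the directed cycle of length five (on all the vertices). -/
def IsPentagon (Γ : V → V → Prop) : Prop := ∃ e : V ≃ Fin 5, ∀ i j, Γ i j ↔ e j = e i + 1

/-- `Γ` is a tournament. -/
def IsTournament (Γ : V → V → Prop) : Prop := ∀ i j, i ≠ j → (Γ i j ↔ ¬ Γ j i)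

open Classical in
/-- The number of arcs between two vertices. -/
noncomputable def W (Γ : V → V → Prop) (i j : V) : ℤ :=
  (if Γ i j then 1 else 0) + (if Γ j i then 1 else 0)

omit [Fintype V] [DecidableEq V] in
lemma W_symm (Γ : V → V → Prop) (i j : V) : W Γ i j = W Γ j i := by
  unfold W; rw [add_comm]

omit [Fintype V] [DecidableEq V] in
lemma W_diag (Γ : V → V → Prop) (hl : ∀ i, ¬ Γ i i) (i : V) : W Γ i i = 0 := by
  unfold W; simp [hl]

omit [Fintype V] [DecidableEq V] in
lemma W_nonneg (Γ : V → V → Prop) (i j : V) : 0 ≤ W Γ i j := by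
  unfold W; split_ifs <;> norm_num

omit [Fintype V] [DecidableEq V] in
lemma W_le (Γ : V → V → Prop) (i j : V) : W Γ i j ≤ 2 := by
  unfold W; split_ifs <;> norm_num

omit [Fintype V] [DecidableEq V] in
lemma W_cast (Γ : V → V → Prop) (i j : V) : (W Γ i j : ℝ) = arc Γ i j + arc Γ j i := by
  unfold W arc
  split_ifs <;> norm_num

lemma W_row (Γ : V → V → Prop) (hb : ∀ i, outdeg Γ i = indeg Γ i) (i : V) :
    ∑ j, W Γ i j = 2 * (outdeg Γ i : ℤ) := by
  have h1 : ((∑ j, W Γ i j : ℤ) : ℝ) = ((2 * (outdeg Γ i : ℤ) : ℤ) : ℝ) := by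
    push_cast
    rw [sum_congr rfl fun j _ => W_cast Γ i j, sum_add_distrib, sum_arc, sum_arc', hb]
    ring
  exact_mod_cast h1

/-- The basic inequality. -/
lemma basic (Γ : V → V → Prop) (hl : ∀ i, ¬ Γ i i) (hb : ∀ i, outdeg Γ i = indeg Γ i) {R : ℝ}
    (hR : 0 < R) (hs : spread Γ ≤ 2 * R) {i j : V} (hij : i ≠ j) :
    lhs (W Γ) (fun i => (outdeg Γ i : ℤ)) (alpha Γ + beta Γ) i j ≤ 8 * R ^ 2 := by
  set c : ℝ := (alpha Γ + beta Γ) / 2 with hc
  set x : V → ℝ := fun k => (if k = i then 1 else 0) - (if k = j then 1 else 0) with hx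
  have hx0 : ∑ k, x k = 0 := by
    simp only [hx]
    rw [sum_sub_distrib, sum_ite_eq', sum_ite_eq', if_pos (mem_univ _), if_pos (mem_univ _)]
    ring
  have hx2 : ∑ k, x k ^ 2 = 2 := by
    have : ∀ k, x k ^ 2 = (if k = i then 1 else 0) + (if k = j then 1 else 0) := by
      intro k
      simp only [hx]
      by_cases h1 : k = i
      · subst h1; simp [hij]
      · by_cases h2 : k = j
        · subst h2; simp [h1]
        · simp [h1, h2]
    rw [sum_congr rfl fun k _ => this k, sum_add_distrib, sum_ite_eq', sum_ite_eq',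
      if_pos (mem_univ _), if_pos (mem_univ _)]
    norm_num
  have hform : ∀ y : V → ℝ, ∑ i, y i = 0 →
      |∑ i, y i * ∑ j, sm Γ i j * y j - c * ∑ i, y i ^ 2| ≤ R * ∑ i, y i ^ 2 := by
    intro y hy
    rw [← qf_sm Γ hl]
    have h1 := alpha_le Γ y hy
    have h2 := le_beta Γ y hy
    have h3 : 0 ≤ ∑ i, y i ^ 2 := sum_nonneg fun i _ => sq_nonneg _
    have h4 : spread Γ * ∑ i, y i ^ 2 ≤ 2 * R * ∑ i, y i ^ 2 := mul_le_mul_of_nonneg_right hs h3
    unfold spread at h4
    rw [abs_le, hc]
    constructor <;> nlinarith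
  have hnb := norm_bound (sm Γ) (sm_symm Γ) (sm_row Γ hl hb) c R hR hform x hx0
  rw [hx2] at hnb
  have hSx : ∀ k, ∑ l, sm Γ k l * x l = sm Γ k i - sm Γ k j := by
    intro k
    have : ∀ l, sm Γ k l * x l = (if l = i then sm Γ k l else 0) - (if l = j then sm Γ k l else 0) := by
      intro l
      simp only [hx]
      split_ifs <;> ring
    rw [sum_congr rfl fun l _ => this l, sum_sub_distrib, sum_ite_eq', sum_ite_eq',
      if_pos (mem_univ _), if_pos (mem_univ _)]
  simp only [hSx] at hnb
  set f : V → ℝ := fun k => (sm Γ k i - sm Γ k j - c * x k) ^ 2 with hf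
  have h1 := sum_ite_pair f hij
  have h2 : ∑ k, (if k = i ∨ k = j then 0 else f k) = (Nn (W Γ) i j : ℝ) / 4 := by
    unfold Nn
    push_cast
    rw [sum_div]
    apply sum_congr rfl
    intro k _
    by_cases h : k = i ∨ k = j
    · rw [if_pos h, if_pos h]; simp
    · rw [if_neg h, if_neg h]
      push Not at h
      simp only [hf, hx]
      rw [if_neg h.1, if_neg h.2]
      unfold sm
      rw [if_neg h.1, if_neg h.2, W_cast, W_cast]
      ring
  have hxi : x i = 1 := by simp [hx, hij]
  have hxj : x j = -1 := by simp [hx, Ne.symm hij]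
  have h3 : f i = (2 * (outdeg Γ i : ℝ) + W Γ i j - (alpha Γ + beta Γ)) ^ 2 / 4 := by
    simp only [hf]
    rw [hxi]
    unfold sm
    rw [if_pos rfl, if_neg hij, W_cast, hc]
    ring
  have h4 : f j = (2 * (outdeg Γ j : ℝ) + W Γ i j - (alpha Γ + beta Γ)) ^ 2 / 4 := by
    simp only [hf]
    rw [hxj]
    unfold sm
    rw [if_pos rfl, if_neg (Ne.symm hij), W_cast, hc]
    ring
  unfold lhs
  push_cast
  have h5 : ∑ k, f k = (Nn (W Γ) i j : ℝ) / 4 + f i + f j := by
    rw [← h2]; linarith
  have h6 : ∑ k, f k ≤ R ^ 2 * 2 := hnb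
  rw [h5, h3, h4] at h6
  linarith

set_option linter.unusedSectionVars false

/-! ### The pentagon -/

lemma perm5 : ∀ f : Fin 5 → Fin 5, (∀ a b, f a = f b → a = b) → (∀ v, f v ≠ v) →
    (∀ v, f (f v) ≠ v) →
    (∀ a b : Fin 5, ![0, f 0, f (f 0), f (f (f 0)), f (f (f (f 0)))] a =
      ![0, f 0, f (f 0), f (f (f 0)), f (f (f (f 0)))] b → a = b) ∧
    (∀ a : Fin 5, f (![0, f 0, f (f 0), f (f (f 0)), f (f (f (f 0)))] a) =
      ![0, f 0, f (f 0), f (f (f 0)), f (f (f (f 0)))] (a + 1)) := by
  decide +kernel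

/-- A digraph with five vertices, without loops and digons, with indegrees and outdegrees `1`. -/
lemma pentagon_of (Γ : V → V → Prop) (hl : ∀ i, ¬ Γ i i) (hb : ∀ i, outdeg Γ i = indeg Γ i)
    (h5 : Fintype.card V = 5) (hdig : ∀ i j, Γ i j → ¬ Γ j i) (ho : ∀ i, outdeg Γ i = 1) :
    IsPentagon Γ := by
  classical
  have hout : ∀ i, ∃ j, Γ i j ∧ ∀ k, Γ i k → k = j := by
    intro i
    have := ho i
    unfold outdeg at this
    obtain ⟨j, hj⟩ := card_eq_one.1 this
    have h1 : ∀ k, Γ i k ↔ k = j := by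
      intro k
      have := congrArg (fun s => k ∈ s) hj
      simpa using this
    exact ⟨j, (h1 j).2 rfl, fun k hk => (h1 k).1 hk⟩
  choose σ hσ1 hσ2 using hout
  have hin : ∀ i k j, Γ i j → Γ k j → i = k := by
    intro i k j h1 h2
    have := (hb j).symm.trans (ho j)
    unfold indeg at this
    obtain ⟨l, hl'⟩ := card_eq_one.1 this
    have h3 : ∀ m, Γ m j ↔ m = l := by
      intro m
      have := congrArg (fun s => m ∈ s) hl'
      simpa using this
    rw [(h3 i).1 h1, (h3 k).1 h2]
  let e0 : V ≃ Fin 5 := Fintype.equivFinOfCardEq h5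
  set f : Fin 5 → Fin 5 := fun a => e0 (σ (e0.symm a)) with hf
  have hinj : ∀ a b, f a = f b → a = b := by
    intro a b h
    have h1 : σ (e0.symm a) = σ (e0.symm b) := e0.injective h
    have h2 := hin _ _ _ (hσ1 (e0.symm a)) (h1 ▸ hσ1 (e0.symm b))
    exact e0.symm.injective h2
  have hfix : ∀ v, f v ≠ v := by
    intro v h
    have h1 : σ (e0.symm v) = e0.symm v := by
      rw [← e0.symm_apply_apply (σ (e0.symm v))]
      exact congrArg e0.symm h
    have h2 := hσ1 (e0.symm v)
    rw [h1] at h2
    exact hl _ h2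
  have htwo : ∀ v, f (f v) ≠ v := by
    intro v h
    have h1 : σ (σ (e0.symm v)) = e0.symm v := by
      have h2 : f (f v) = e0 (σ (σ (e0.symm v))) := by simp [hf]
      rw [h2] at h
      rw [← e0.symm_apply_apply (σ (σ (e0.symm v)))]
      exact congrArg e0.symm h
    have h2 := hσ1 (e0.symm v)
    have h3 := hσ1 (σ (e0.symm v))
    rw [h1] at h3
    exact hdig _ _ h2 h3
  obtain ⟨hg1, hg2⟩ := perm5 f hinj hfix htwo
  set g : Fin 5 → Fin 5 := ![0, f 0, f (f 0), f (f (f 0)), f (f (f (f 0)))] with hg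
  have hgb : Function.Bijective g := Finite.injective_iff_bijective.1 (fun a b h => hg1 a b h)
  let eg : Fin 5 ≃ Fin 5 := Equiv.ofBijective g hgb
  refine ⟨e0.trans eg.symm, fun i j => ?_⟩
  have h1 : Γ i j ↔ j = σ i := ⟨fun h => hσ2 i j h, fun h => h ▸ hσ1 i⟩
  rw [h1]
  have h2 : j = σ i ↔ e0 j = f (e0 i) := by
    rw [hf]
    simp
  rw [h2]
  simp only [Equiv.trans_apply]
  set a := eg.symm (e0 i) with ha
  have h3 : e0 i = g a := by
    rw [ha]; exact (eg.apply_symm_apply (e0 i)).symm
  rw [h3, hg2 a]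
  constructor
  · intro h
    rw [h]
    exact eg.symm_apply_apply (a + 1)
  · intro h
    rw [← h]
    exact (eg.apply_symm_apply (e0 j)).symm

lemma pentagon_facts (Γ : V → V → Prop) (h : IsPentagon Γ) :
    Fintype.card V = 5 ∧ (∀ i, ¬ Γ i i) ∧ (∀ i j, Γ i j → ¬ Γ j i) ∧ (∀ i, outdeg Γ i = 1) ∧
      (∀ i, indeg Γ i = 1) := by
  classical
  obtain ⟨e, he⟩ := h
  refine ⟨by rw [Fintype.card_congr e]; simp, ?_, ?_, ?_, ?_⟩
  · intro i h
    rw [he] at h
    revert h
    generalize e i = a
    revert a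
    decide
  · intro i j h1 h2
    rw [he] at h1 h2
    rw [h1] at h2
    revert h2
    generalize e i = a
    revert a
    decide
  · intro i
    unfold outdeg
    have : (univ.filter fun j => Γ i j) = {e.symm (e i + 1)} := by
      ext j
      simp [he, Equiv.eq_symm_apply]
    rw [this, card_singleton]
  · intro i
    unfold indeg
    have : (univ.filter fun j => Γ j i) = {e.symm (e i - 1)} := by
      ext j
      simp only [he, mem_filter, mem_univ, true_and, mem_singleton, Equiv.eq_symm_apply]
      constructor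
      · intro h; rw [h, add_sub_cancel_right]
      · intro h; rw [h, sub_add_cancel]
    rw [this, card_singleton]

/-- The spread of the pentagon is at most `√5 / 2`. -/
lemma pentagon_le (Γ : V → V → Prop) (h : IsPentagon Γ) : spread Γ ≤ √5 / 2 := by
  classical
  obtain ⟨h5, -, -, ho, -⟩ := pentagon_facts Γ h
  obtain ⟨e, he⟩ := h
  have key : ∀ x : V → ℝ, ∑ i, x i = 0 →
      |qf Γ x - 5 / 4 * ∑ i, x i ^ 2| ≤ √5 / 4 * ∑ i, x i ^ 2 := by
    intro x hx
    rw [qf_eq]
    set y : Fin 5 → ℝ := fun a => x (e.symm a) with hy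
    have e1 : ∑ i, x i ^ 2 = ∑ a, y a ^ 2 := by
      rw [← Equiv.sum_comp e.symm]
    have e0 : ∑ a, y a = 0 := by
      rw [← hx, ← Equiv.sum_comp e.symm]
    have e2 : ∑ i, ∑ j, (if Γ i j then x i * x j else 0) = ∑ a, y a * y (a + 1) := by
      rw [← Equiv.sum_comp e.symm]
      apply sum_congr rfl
      intro a _
      rw [← Equiv.sum_comp e.symm]
      have : ∀ b, (if Γ (e.symm a) (e.symm b) then x (e.symm a) * x (e.symm b) else 0) =
          if b = a + 1 then y a * y b else 0 := by
        intro b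
        have : Γ (e.symm a) (e.symm b) ↔ b = a + 1 := by rw [he]; simp
        by_cases hb : b = a + 1
        · rw [if_pos hb, if_pos (this.2 hb)]
        · rw [if_neg hb, if_neg (fun h => hb (this.1 h))]
      rw [sum_congr rfl fun b _ => this b, sum_ite_eq', if_pos (mem_univ _)]
    have e3 : ∑ i, (outdeg Γ i : ℝ) * x i ^ 2 = ∑ a, y a ^ 2 := by
      rw [← e1]
      apply sum_congr rfl
      intro i _
      rw [ho]; push_cast; ring
    rw [e1, e2, e3]
    set s := ∑ a, y a ^ 2 with hs
    set p := ∑ a, y a * y (a + 1) with hp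
    -- Cauchy-Schwarz
    set z : Fin 5 → ℝ := fun a => y (a + 1) + y (a + 4) + y a / 2 with hz
    have hcs : (∑ a, y a * z a) ^ 2 ≤ (∑ a, y a ^ 2) * ∑ a, z a ^ 2 :=
      sum_mul_sq_le_sq_mul_sq _ _ _
    have q1 : ∑ a, y a * z a = 2 * p + s / 2 := by
      simp only [hz, hs, hp, Fin.sum_univ_five]
      simp only [show (0 : Fin 5) + 1 = 1 from rfl, show (1 : Fin 5) + 1 = 2 from rfl,
        show (2 : Fin 5) + 1 = 3 from rfl, show (3 : Fin 5) + 1 = 4 from rfl,
        show (4 : Fin 5) + 1 = 0 from rfl, show (0 : Fin 5) + 4 = 4 from rfl,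
        show (1 : Fin 5) + 4 = 0 from rfl, show (2 : Fin 5) + 4 = 1 from rfl,
        show (3 : Fin 5) + 4 = 2 from rfl, show (4 : Fin 5) + 4 = 3 from rfl]
      ring
    have q2 : ∑ a, z a ^ 2 = 5 / 4 * s := by
      have h4 : y 4 = -(y 0 + y 1 + y 2 + y 3) := by
        rw [Fin.sum_univ_five] at e0
        linarith
      simp only [hz, hs, Fin.sum_univ_five]
      simp only [show (0 : Fin 5) + 1 = 1 from rfl, show (1 : Fin 5) + 1 = 2 from rfl,
        show (2 : Fin 5) + 1 = 3 from rfl, show (3 : Fin 5) + 1 = 4 from rfl,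
        show (4 : Fin 5) + 1 = 0 from rfl, show (0 : Fin 5) + 4 = 4 from rfl,
        show (1 : Fin 5) + 4 = 0 from rfl, show (2 : Fin 5) + 4 = 1 from rfl,
        show (3 : Fin 5) + 4 = 2 from rfl, show (4 : Fin 5) + 4 = 3 from rfl]
      rw [h4]
      ring
    rw [q1, q2, ← hs] at hcs
    have hs0 : 0 ≤ s := sum_nonneg fun a _ => sq_nonneg _
    have h5s : (√5 : ℝ) ^ 2 = 5 := Real.sq_sqrt (by norm_num)
    have h1 : |2 * p + s / 2| ≤ √5 / 2 * s := by
      apply abs_le_of_sq_le_sq _ (by positivity)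
      calc (2 * p + s / 2) ^ 2 ≤ s * (5 / 4 * s) := hcs
        _ = (√5 / 2 * s) ^ 2 := by rw [mul_pow, div_pow, h5s]; ring
    have h2 : s - p - 5 / 4 * s = -((2 * p + s / 2) / 2) := by ring
    rw [h2, abs_neg, abs_div, abs_of_pos (by norm_num : (0 : ℝ) < 2)]
    linarith
  have hne := vals_nonempty Γ (by omega)
  have hβ : beta Γ ≤ 5 / 4 + √5 / 4 := by
    apply csSup_le hne
    rintro r ⟨x, h0, h1, rfl⟩
    have := (abs_le.1 (key x h0)).2
    rw [h1] at this
    change qf Γ x ≤ _
    linarith
  have hα : 5 / 4 - √5 / 4 ≤ alpha Γ := by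
    apply le_csInf hne
    rintro r ⟨x, h0, h1, rfl⟩
    have := (abs_le.1 (key x h0)).1
    rw [h1] at this
    change _ ≤ qf Γ x
    linarith
  unfold spread
  linarith

/-! ### From the matrix to the digraph -/

lemma no_digon (Γ : V → V → Prop) (hl : ∀ i, ¬ Γ i i) (h : ∀ i j, i ≠ j → W Γ i j ≤ 1) :
    ∀ i j, Γ i j → ¬ Γ j i := by
  intro i j h1 h2
  have hij : i ≠ j := by rintro rfl; exact hl i h1
  have := h i j hij
  unfold W at this
  rw [if_pos h1, if_pos h2] at this
  omega

lemma no_digon_compl (Γ : V → V → Prop) (h : ∀ i j, i ≠ j → 1 ≤ W Γ i j) :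
    ∀ i j, complement Γ i j → ¬ complement Γ j i := by
  intro i j h1 h2
  have := h i j h1.1
  unfold W at this
  rw [if_neg h1.2, if_neg h2.2] at this
  omega

/-- The digraphs of spread zero, at most one and at most `√5 / 2`. -/
lemma structure_ (Γ : V → V → Prop) (hn : 3 ≤ Fintype.card V) (hl : ∀ i, ¬ Γ i i)
    (hb : ∀ i, outdeg Γ i = indeg Γ i) (hs : spread Γ ≤ √5 / 2) :
    ((∀ i j, ¬ Γ i j) ∨ (∀ i j, i ≠ j → Γ i j) ∨ IsTournament Γ) ∨
    (Cocktail Γ ∨ Cocktail (complement Γ)) ∨
    (√5 / 2 ≤ spread Γ ∧ (IsPentagon Γ ∨ IsPentagon (complement Γ))) := by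
  classical
  have h5 : (0 : ℝ) < √5 := by positivity
  have h5s : (√5 : ℝ) ^ 2 = 5 := Real.sq_sqrt (by norm_num)
  have H : ∀ i j, i ≠ j →
      lhs (W Γ) (fun i => (outdeg Γ i : ℤ)) (alpha Γ + beta Γ) i j ≤ 5 / 2 := by
    intro i j hij
    have := basic Γ hl hb (R := √5 / 4) (by positivity) (by linarith) hij
    have e : 8 * (√5 / 4) ^ 2 = (5 : ℝ) / 2 := by rw [div_pow, h5s]; norm_num
    rw [e] at this
    exact this
  rcases classify (W_symm Γ) (W_diag Γ hl) (W_nonneg Γ) (W_le Γ) (W_row Γ hb) hn H with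
    ⟨t, ht⟩ | ⟨h1, h2⟩ | ⟨h1, h2⟩ | ⟨hc, ⟨a, b, hab, heq⟩, h1⟩
  · left
    obtain ⟨a, b, hab⟩ := Fintype.exists_pair_of_one_lt_card (show 1 < Fintype.card V by omega)
    have ht0 : 0 ≤ t := by rw [← ht a b hab]; exact W_nonneg Γ a b
    have ht2 : t ≤ 2 := by rw [← ht a b hab]; exact W_le Γ a b
    have : t = 0 ∨ t = 1 ∨ t = 2 := by omega
    rcases this with rfl | rfl | rfl
    · left
      intro i j h
      have hij : i ≠ j := by rintro rfl; exact hl i h
      have := ht i j hij
      unfold W at this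
      rw [if_pos h] at this
      split_ifs at this <;> omega
    · right; right
      intro i j hij
      have := ht i j hij
      unfold W at this
      by_cases h3 : Γ i j <;> by_cases h4 : Γ j i
      · rw [if_pos h3, if_pos h4] at this; omega
      · simp [h3, h4]
      · simp [h3, h4]
      · rw [if_neg h3, if_neg h4] at this; omega
    · right; left
      intro i j hij
      have := ht i j hij
      unfold W at this
      by_contra h3
      rw [if_neg h3] at this
      split_ifs at this <;> omega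
  · right; left; left
    refine ⟨no_digon Γ hl h1, fun i => ?_⟩
    have h3 := h2 i
    have h4 := hb i
    omega
  · right; left; right
    refine ⟨no_digon_compl Γ h1, fun i => ?_⟩
    have h3 := h2 i
    have h4 := hb i
    have h5 := outdeg_compl Γ hl i
    have h6 := indeg_compl Γ hl i
    omega
  · right; right
    constructor
    · by_contra hlt
      push Not at hlt
      have hab' := basic Γ hl hb (R := max (spread Γ / 2) (1 / 4)) (by positivity)
        (by linarith [le_max_left (spread Γ / 2) (1 / 4)]) hab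
      rw [heq] at hab'
      have h6 : max (spread Γ / 2) (1 / 4) < √5 / 4 := by
        apply max_lt (by linarith)
        have : (1 : ℝ) < √5 := by
          rw [show (1 : ℝ) = √1 by simp]
          exact Real.sqrt_lt_sqrt (by norm_num) (by norm_num)
        linarith
      have h7 : (max (spread Γ / 2) (1 / 4)) ^ 2 < (√5 / 4) ^ 2 :=
        pow_lt_pow_left₀ h6 (by positivity) two_ne_zero
      rw [div_pow, h5s] at h7
      linarith
    · rcases h1 with ⟨h1, h2⟩ | ⟨h1, h2⟩
      · left
        refine pentagon_of Γ hl hb hc (no_digon Γ hl h1) (fun i => ?_)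
        have := h2 i
        omega
      · right
        refine pentagon_of (complement Γ) (compl_loopless Γ) (balanced_compl Γ hl hb) hc
          (no_digon_compl Γ h1) (fun i => ?_)
        have h3 := h2 i
        have h5 := outdeg_compl Γ hl i
        omega

/-- The spread of the pentagon. -/
lemma pentagon_spread (Γ : V → V → Prop) (h : IsPentagon Γ) : spread Γ = √5 / 2 := by
  classical
  obtain ⟨h5, hl, hdig, ho, hi⟩ := pentagon_facts Γ h
  have hle := pentagon_le Γ h
  have hb : ∀ i, outdeg Γ i = indeg Γ i := fun i => by rw [ho, hi]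
  rcases structure_ Γ (by omega) hl hb hle with (h1 | h1 | h1) | (h1 | h1) | ⟨h1, -⟩
  · exfalso
    obtain ⟨i⟩ : Nonempty V := Fintype.card_pos_iff.1 (by omega)
    have := ho i
    unfold outdeg at this
    rw [card_eq_one] at this
    obtain ⟨j, hj⟩ := this
    have : j ∈ (univ.filter fun j => Γ i j) := by rw [hj]; simp
    exact h1 i j (by simpa using this)
  · exfalso
    obtain ⟨a, b, hab⟩ := Fintype.exists_pair_of_one_lt_card (show 1 < Fintype.card V by omega)
    exact hdig a b (h1 a b hab) (h1 b a hab.symm)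
  · -- a tournament on five vertices has outdegrees two
    exfalso
    obtain ⟨i⟩ : Nonempty V := Fintype.card_pos_iff.1 (by omega)
    have h2 := W_row Γ hb i
    rw [ho i] at h2
    have h3 : ∀ j, W Γ i j = 1 - (if i = j then 1 else 0) := by
      intro j
      by_cases hij : i = j
      · subst hij; rw [W_diag Γ hl]; simp
      · rw [if_neg hij]
        have := h1 i j hij
        unfold W
        by_cases h3 : Γ i j
        · rw [if_pos h3, if_neg (this.1 h3)]; norm_num
        · have h4 : Γ j i := by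
            by_contra h4
            exact h3 (this.2 h4)
          rw [if_neg h3, if_pos h4]; norm_num
    rw [sum_congr rfl fun j _ => h3 j, sum_sub_distrib, sum_ite_eq, if_pos (mem_univ _), sum_const,
      card_univ, h5] at h2
    norm_num at h2
  · exfalso
    obtain ⟨i⟩ : Nonempty V := Fintype.card_pos_iff.1 (by omega)
    have := (h1.2 i).1
    omega
  · exfalso
    obtain ⟨i⟩ : Nonempty V := Fintype.card_pos_iff.1 (by omega)
    have := (h1.2 i).1
    omega
  · exact le_antisymm hle h1

lemma spread_zero_of (Γ : V → V → Prop) (hn : 3 ≤ Fintype.card V) (hl : ∀ i, ¬ Γ i i)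
    (hb : ∀ i, outdeg Γ i = indeg Γ i)
    (h : (∀ i j, ¬ Γ i j) ∨ (∀ i j, i ≠ j → Γ i j) ∨ IsTournament Γ) : spread Γ = 0 := by
  classical
  rcases h with h | h | h
  · apply spread_empty Γ (by omega)
    intro i
    unfold outdeg
    rw [card_eq_zero, filter_eq_empty_iff]
    intro j _
    exact h i j
  · rw [← spread_compl Γ hl (by omega)]
    apply spread_empty (complement Γ) (by omega)
    intro i
    unfold outdeg
    rw [card_eq_zero, filter_eq_empty_iff]
    intro j _ h'
    exact h'.2 (h i j h'.1)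
  · have h1 : ∀ i, 2 * outdeg Γ i + 1 = Fintype.card V := by
      intro i
      have h2 := W_row Γ hb i
      have h3 : ∀ j, W Γ i j = 1 - (if i = j then 1 else 0) := by
        intro j
        by_cases hij : i = j
        · subst hij; rw [W_diag Γ hl]; simp
        · rw [if_neg hij]
          have := h i j hij
          unfold W
          by_cases h3 : Γ i j
          · rw [if_pos h3, if_neg (this.1 h3)]; norm_num
          · have h4 : Γ j i := by
              by_contra h4
              exact h3 (this.2 h4)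
            rw [if_neg h3, if_pos h4]; norm_num
      rw [sum_congr rfl fun j _ => h3 j, sum_sub_distrib, sum_ite_eq, if_pos (mem_univ _),
        sum_const, card_univ, nsmul_eq_mul] at h2
      omega
    obtain ⟨i₀⟩ : Nonempty V := Fintype.card_pos_iff.1 (by omega)
    refine spread_tournament Γ hl hb (by omega) (outdeg Γ i₀) (fun i => ?_) ?_ (h1 i₀)
    · have := h1 i
      have := h1 i₀
      omega
    · intro i j h2
      have hij : i ≠ j := by rintro rfl; exact hl i h2
      exact (h i j hij).1 h2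

/-- **The three smallest Laplacian spreads.**  Let `Γ` be a balanced digraph of order `n ≥ 3`.
(1) `sp(Γ) = 0` if and only if `Γ` has no arcs, is complete or is a tournament.
(2) `sp(Γ) = 1` if and only if `n ≥ 4` is even and `Γ` or its complement is a digraph without
digons all of whose outdegrees and indegrees are `(n - 2) / 2` (this answers the question).
(3) `sp(Γ) = √5 / 2` if and only if `Γ` or its complement is the directed cycle of length five.
(4) `sp(Γ)` is `0` or `1` or `√5 / 2` or larger than `√5 / 2`. -/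
theorem result (V : Type) [Fintype V] [DecidableEq V] (Γ : V → V → Prop)
    (hn : 3 ≤ Fintype.card V) (hloop : ∀ i, ¬ Γ i i) (hbal : ∀ i, outdeg Γ i = indeg Γ i) :
    (spread Γ = 0 ↔ (∀ i j, ¬ Γ i j) ∨ (∀ i j, i ≠ j → Γ i j) ∨ IsTournament Γ) ∧
    (spread Γ = 1 ↔
      Even (Fintype.card V) ∧ 4 ≤ Fintype.card V ∧ (HalfRegular Γ ∨ HalfRegular (complement Γ))) ∧
    (spread Γ = √5 / 2 ↔ IsPentagon Γ ∨ IsPentagon (complement Γ)) ∧
    (spread Γ = 0 ∨ spread Γ = 1 ∨ spread Γ = √5 / 2 ∨ √5 / 2 < spread Γ) := by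
  have hl' := compl_loopless Γ
  have h2 : (2 : ℝ) < √5 := by
    rw [show (2 : ℝ) = √4 by
      rw [show (4 : ℝ) = 2 ^ 2 by norm_num]; exact (Real.sqrt_sq (by norm_num)).symm]
    exact Real.sqrt_lt_sqrt (by norm_num) (by norm_num)
  have hone := SpreadOne.result V Γ hn hloop hbal
  have hcock : Cocktail Γ ∨ Cocktail (complement Γ) → spread Γ = 1 := by
    rintro (h | h)
    · exact spread_of_cocktail Γ hloop hn h
    · rw [← spread_compl Γ hloop (by omega)]
      exact spread_of_cocktail (complement Γ) hl' hn h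
  have hpent : IsPentagon Γ ∨ IsPentagon (complement Γ) → spread Γ = √5 / 2 := by
    rintro (h | h)
    · exact pentagon_spread Γ h
    · rw [← spread_compl Γ hloop (by omega)]
      exact pentagon_spread (complement Γ) h
  have hstr := structure_ Γ hn hloop hbal
  refine ⟨⟨fun h => ?_, spread_zero_of Γ hn hloop hbal⟩, hone, ⟨fun h => ?_, hpent⟩, ?_⟩
  · rcases hstr (by rw [h]; positivity) with h1 | h1 | ⟨h1, -⟩
    · exact h1
    · have := hcock h1
      rw [h] at this
      norm_num at this
    · rw [h] at h1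
      linarith
  · rcases hstr h.le with h1 | h1 | ⟨-, h1⟩
    · have := spread_zero_of Γ hn hloop hbal h1
      rw [h] at this
      linarith
    · have := hcock h1
      rw [h] at this
      linarith
    · exact h1
  · by_cases hlt : √5 / 2 < spread Γ
    · exact Or.inr (Or.inr (Or.inr hlt))
    · rcases hstr (not_lt.1 hlt) with h1 | h1 | ⟨h1, -⟩
      · exact Or.inl (spread_zero_of Γ hn hloop hbal h1)
      · exact Or.inr (Or.inl (hcock h1))
      · exact Or.inr (Or.inr (Or.inl (le_antisymm (not_lt.1 hlt) h1)))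

end Pool.Agent.Results.MP_436edf_co.SmallSpreads
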